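import Pool.Agent.helper27.SY.Spec

set_option autoImplicit false

open Finset ArithmeticFunction

namespace Pool.Agent.SY

open Pool.Agent.SX Pool.Agent.helper85.BVP

theorem SGB_aux (r x : ℝ) (hr : 0 < r) (hx : 0 ≤ x)
    (h : r ≤ ∑ i ∈ Finset.range 7, x ^ i / (i.factorial : ℝ)) : Real.log r ≤ x :=
  (Real.log_le_iff_le_exp hr).mpr (h.trans (Real.sum_le_exp_of_nonneg hx 7))

theorem SGB_log (q : ℕ) (hq : q < 20) :
    Real.log (((21 : ℝ) + q) / (20 + q)) ≤ (LGn q : ℝ) / 10 ^ 9 := by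
  refine SGB_aux _ _ (by positivity) (by positivity) ?_
  interval_cases q <;>
    norm_num [LGn, Finset.sum_range_succ, Nat.factorial]

theorem SGB_tab (q : ℕ) (hq : q < 20) : 2 ^ 45 * (LGn q + 40000) ≤ ln q * 10 ^ 9 := by
  interval_cases q <;> decide +kernel

theorem SGB (hS : SIG_stmt) (hL : LPM_stmt) : SGB_stmt := by
  intro w q hw hq
  have h1 := hS 1 (1090 / 1000) (by norm_num) (by norm_num) hL ((60 + 3 * q) * w)
    ((63 + 3 * q) * w) (by nlinarith) (Nat.mul_le_mul_right _ (by omega))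
  have hw' : (8192 : ℝ) ≤ (w : ℝ) := by exact_mod_cast hw
  have hq0 : (0 : ℝ) ≤ (q : ℝ) := Nat.cast_nonneg q
  have h2 : (((63 + 3 * q) * w : ℕ) : ℝ) / (((60 + 3 * q) * w : ℕ) : ℝ) =
      ((21 : ℝ) + q) / (20 + q) := by
    push_cast
    have hw0 : (w : ℝ) ≠ 0 := by positivity
    rw [div_eq_div_iff (by positivity) (by positivity)]
    ring
  rw [h2] at h1
  have h3 := SGB_log q hq
  have h4 : (491520 : ℝ) ≤ (((60 + 3 * q) * w : ℕ) : ℝ) := by
    push_cast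
    nlinarith
  have h5 : (14.4269505 : ℝ) / (((60 + 3 * q) * w : ℕ) : ℝ) ≤ 14.4269505 / 491520 :=
    div_le_div_of_nonneg_left (by norm_num) (by norm_num) h4
  have h6 : ((2 : ℝ) ^ 45 * ((LGn q : ℝ) + 40000)) ≤ (ln q : ℝ) * 10 ^ 9 := by
    exact_mod_cast SGB_tab q hq
  have h7 : (LGn q : ℝ) / 10 ^ 9 + 40000 / 10 ^ 9 ≤ ((ln q : ℝ) / 2 ^ 44) / 2 := by
    rw [← add_div, div_div, div_le_div_iff₀ (by positivity) (by positivity)]
    nlinarith
  linarith

end Pool.Agent.SY
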